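import Mathlib
set_option autoImplicit false

/-! A group of homomorphisms with small images is compressed by a pair of subgroups of small index
and small order (a number-free form, for arbitrary abelian groups, of the comparison of the rank and the
noncommutative rank of a space of matrices). -/

namespace Pool.Agent.R111.PM

universe u v

section card

variable {G : Type*} [AddCommGroup G]

theorem card_mul_relIndex (H K : AddSubgroup G) :
    Nat.card (H ⊓ K : AddSubgroup G) * H.relIndex K = Nat.card K := by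
  have h1 : (⊥ : AddSubgroup G).relIndex (H ⊓ K) * (H ⊓ K).relIndex K =
      (⊥ : AddSubgroup G).relIndex K := AddSubgroup.relIndex_mul_relIndex _ _ _ bot_le inf_le_right
  rwa [AddSubgroup.relIndex_bot_left, AddSubgroup.relIndex_bot_left,
    AddSubgroup.inf_relIndex_right] at h1

theorem card_sup (H K : AddSubgroup G) :
    Nat.card H * H.relIndex K = Nat.card (H ⊔ K : AddSubgroup G) := by
  have h1 : (⊥ : AddSubgroup G).relIndex H * H.relIndex (H ⊔ K) =
      (⊥ : AddSubgroup G).relIndex (H ⊔ K) :=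
    AddSubgroup.relIndex_mul_relIndex _ _ _ bot_le le_sup_left
  rwa [AddSubgroup.relIndex_bot_left, AddSubgroup.relIndex_bot_left,
    AddSubgroup.relIndex_sup_left] at h1

theorem card_sup_mul_inf (H K : AddSubgroup G) :
    Nat.card (H ⊔ K : AddSubgroup G) * Nat.card (H ⊓ K : AddSubgroup G) =
      Nat.card H * Nat.card K := by
  rw [← card_sup, ← card_mul_relIndex H K]
  ring

end card

section step

variable {H : Type u} {Q : Type v} [AddCommGroup H] [AddCommGroup Q]

/-- the number of values of `g` on the kernel of `f`, modulo the image of `f` -/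
theorem key (f g : H →+ Q) (hf : Finite f.range) (hg : Finite g.range)
    (hfg : Finite (f + g).range) (h1 : Nat.card g.range ≤ Nat.card f.range)
    (h2 : Nat.card (f + g).range ≤ Nat.card f.range) :
    f.range.relIndex (f.ker.map g) ^ 2 ≤ Nat.card f.range := by
  set X := f.range
  set Y := g.range
  set Z := (f + g).range
  set P := f.ker.map g
  have hPY : P ≤ Y := by
    rintro _ ⟨x, -, rfl⟩
    exact ⟨x, rfl⟩
  have hPZ : P ≤ Z := by
    rintro _ ⟨x, hx, rfl⟩
    refine ⟨x, ?_⟩
    have : f x = 0 := hx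
    simp [this]
  have hXYZ : X ≤ Y ⊔ Z := by
    rintro _ ⟨x, rfl⟩
    have : f x = -g x + (f + g) x := by simp
    rw [this]
    exact AddSubgroup.add_mem_sup (Y.neg_mem ⟨x, rfl⟩) ⟨x, rfl⟩
  have hfin : Finite (Y ⊔ Z : AddSubgroup Q) := by
    have h3 : (Y : Set Q) ×ˢ (Z : Set Q) |>.Finite := (Set.toFinite _).prod (Set.toFinite _)
    refine (h3.image fun p => p.1 + p.2).subset ?_
    intro x hx
    obtain ⟨y, hy, z, hz, rfl⟩ := AddSubgroup.mem_sup.1 hx
    exact ⟨(y, z), ⟨hy, hz⟩, rfl⟩
  have hXP : X ⊔ P ≤ Y ⊔ Z := sup_le hXYZ (hPY.trans le_sup_left)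
  have c1 : Nat.card (X ⊔ P : AddSubgroup Q) ≤ Nat.card (Y ⊔ Z : AddSubgroup Q) :=
    Nat.card_mono (Set.toFinite _) hXP
  have c2 : Nat.card P ≤ Nat.card (Y ⊓ Z : AddSubgroup Q) := by
    refine Nat.card_mono ?_ (le_inf hPY hPZ)
    exact (Set.toFinite (Y : Set Q)).subset inf_le_left
  have c3 := card_sup X P
  have c4 := card_sup_mul_inf Y Z
  have c5 : X.relIndex P ≤ Nat.card P := by
    have hP : Finite P := (Set.toFinite (Y : Set Q)).subset hPY
    have := card_mul_relIndex X P
    have hpos : 0 < Nat.card (X ⊓ P : AddSubgroup Q) := by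
      have : Finite (X ⊓ P : AddSubgroup Q) := (Set.toFinite (X : Set Q)).subset inf_le_left
      exact Nat.card_pos
    nlinarith
  have hX : 0 < Nat.card X := Nat.card_pos
  have c6 : Nat.card X * X.relIndex P * Nat.card P ≤ Nat.card X * Nat.card X := by
    calc Nat.card X * X.relIndex P * Nat.card P
        = Nat.card (X ⊔ P : AddSubgroup Q) * Nat.card P := by rw [c3]
      _ ≤ Nat.card (Y ⊔ Z : AddSubgroup Q) * Nat.card (Y ⊓ Z : AddSubgroup Q) :=
          Nat.mul_le_mul c1 c2
      _ = Nat.card Y * Nat.card Z := c4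
      _ ≤ Nat.card X * Nat.card X := Nat.mul_le_mul h1 h2
  have c7 : X.relIndex P * Nat.card P ≤ Nat.card X := by
    rw [mul_assoc] at c6
    exact Nat.le_of_mul_le_mul_left c6 hX
  calc X.relIndex P ^ 2 = X.relIndex P * X.relIndex P := sq _
    _ ≤ X.relIndex P * Nat.card P := Nat.mul_le_mul_left _ c5
    _ ≤ Nat.card X := c7

end step

/-- **Compression.** If every member of a group of homomorphisms `H → Q` has an image of order at
most `n`, then a subgroup of `H` of index at most `n ^ 2` is mapped by all members of the group into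
one subgroup of `Q` of order at most `n ^ 2`. -/
theorem compress (n : ℕ) : ∀ (H : Type u) (Q : Type v) [AddCommGroup H] [AddCommGroup Q]
    (L : AddSubgroup (H →+ Q)), (∀ f ∈ L, Finite f.range ∧ Nat.card f.range ≤ n) →
    ∃ (H₀ : AddSubgroup H) (P : AddSubgroup Q), Finite P ∧ Nat.card P ≤ n ^ 2 ∧ H₀.index ≠ 0 ∧
      H₀.index ≤ n ^ 2 ∧ ∀ f ∈ L, ∀ x ∈ H₀, f x ∈ P := by
  induction n using Nat.strong_induction_on with
  | _ n ih =>
  intro H Q _ _ L hL
  classical
  -- a member with the largest image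
  obtain ⟨f, hf, hmax⟩ : ∃ f ∈ L, ∀ g ∈ L, Nat.card g.range ≤ Nat.card f.range := by
    have hne : ∃ m, ∃ f ∈ L, Nat.card f.range = m := ⟨_, 0, L.zero_mem, rfl⟩
    have hb : ∀ m, (∃ f ∈ L, Nat.card f.range = m) → m ≤ n := by
      rintro m ⟨f, hf, rfl⟩
      exact (hL f hf).2
    obtain ⟨f, hf, hfm⟩ := Nat.findGreatest_spec (P := fun m => ∃ f ∈ L, Nat.card f.range = m)
      (hb _ hne.choose_spec) hne.choose_spec
    refine ⟨f, hf, fun g hg => ?_⟩
    rw [hfm]
    exact Nat.le_findGreatest (hL g hg).2 ⟨g, hg, rfl⟩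
  set a := Nat.card f.range with ha
  have hfin : Finite f.range := (hL f hf).1
  have ha0 : 0 < a := Nat.card_pos
  have han : a ≤ n := (hL f hf).2
  rcases Nat.lt_or_ge 1 a with ha1 | ha1
  swap
  · refine ⟨⊤, ⊥, inferInstance, ?_, ?_, ?_, ?_⟩
    · rw [AddSubgroup.card_bot]
      nlinarith
    · simp
    · rw [AddSubgroup.index_top]
      nlinarith
    · intro g hg x _
      have h1 : Nat.card g.range ≤ 1 := (hmax g hg).trans ha1
      have hgf : Finite g.range := (hL g hg).1
      have h2 : g.range = ⊥ := AddSubgroup.eq_bot_of_card_le _ h1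
      have h3 : g x ∈ g.range := ⟨x, rfl⟩
      rwa [h2] at h3
  · -- the induced group of homomorphisms
    set X := f.range with hX
    let Φ : (H →+ Q) →+ (f.ker →+ Q ⧸ X) :=
      { toFun := fun g => (QuotientAddGroup.mk' X).comp (g.comp f.ker.subtype)
        map_zero' := by ext x; simp
        map_add' := fun g g' => by ext x; simp }
    have hΦ : ∀ g (x : f.ker), Φ g x = QuotientAddGroup.mk' X (g x) := fun g x => rfl
    have hrange : ∀ g : H →+ Q, (Φ g).range = (f.ker.map g).map (QuotientAddGroup.mk' X) := by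
      intro g
      ext y
      constructor
      · rintro ⟨x, rfl⟩
        exact ⟨g x, ⟨x, x.2, rfl⟩, rfl⟩
      · rintro ⟨_, ⟨x, hx, rfl⟩, rfl⟩
        exact ⟨⟨x, hx⟩, rfl⟩
    have hcard : ∀ g : H →+ Q, Nat.card (Φ g).range = X.relIndex (f.ker.map g) := by
      intro g
      rw [hrange, ← AddSubgroup.relIndex_ker, QuotientAddGroup.ker_mk']
    have hm : a.sqrt < n := (Nat.sqrt_lt_self ha1).trans_le han
    obtain ⟨H₁, P₁, hP₁f, hP₁, hi0, hi, hLP⟩ := ih a.sqrt hm f.ker (Q ⧸ X) (L.map Φ) (by
      rintro _ ⟨g, hg, rfl⟩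
      constructor
      · have hgf : Finite g.range := (hL g hg).1
        have h3 : (g.range : Set Q).Finite := Set.toFinite _
        rw [hrange]
        refine (h3.image (QuotientAddGroup.mk' X)).subset ?_
        rintro _ ⟨_, ⟨x, -, rfl⟩, rfl⟩
        exact ⟨g x, ⟨x, rfl⟩, rfl⟩
      · rw [hcard, Nat.le_sqrt']
        exact key f g hfin (hL g hg).1 (hL _ (L.add_mem hf hg)).1 (hmax g hg)
          (hmax _ (L.add_mem hf hg)))
    have hsq : a.sqrt ^ 2 ≤ a := Nat.sqrt_le' a
    have hcc : Nat.card (P₁.comap (QuotientAddGroup.mk' X)) = a * Nat.card P₁ := by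
      have hle : X ≤ P₁.comap (QuotientAddGroup.mk' X) := by
        intro x hx
        have : QuotientAddGroup.mk' X x = 0 := by
          rw [← AddMonoidHom.mem_ker, QuotientAddGroup.ker_mk']
          exact hx
        show QuotientAddGroup.mk' X x ∈ P₁
        rw [this]
        exact P₁.zero_mem
      have h3 := card_mul_relIndex X (P₁.comap (QuotientAddGroup.mk' X))
      rw [inf_eq_left.2 hle] at h3
      rw [← h3]
      congr 1
      have h4 := AddSubgroup.relIndex_ker (P₁.comap (QuotientAddGroup.mk' X))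
        (QuotientAddGroup.mk' X)
      rw [QuotientAddGroup.ker_mk', AddSubgroup.map_comap_eq_self_of_surjective
        (QuotientAddGroup.mk'_surjective X)] at h4
      exact h4
    have hidx : (H₁.map f.ker.subtype).index = H₁.index * a := by
      rw [AddSubgroup.index_map_subtype, AddSubgroup.index_ker]
    refine ⟨H₁.map f.ker.subtype, P₁.comap (QuotientAddGroup.mk' X), ?_, ?_, ?_, ?_, ?_⟩
    · apply Nat.finite_of_card_ne_zero
      rw [hcc]
      exact (Nat.mul_pos ha0 Nat.card_pos).ne'
    · rw [hcc]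
      calc a * Nat.card P₁ ≤ a * a := Nat.mul_le_mul_left _ (hP₁.trans hsq)
        _ ≤ n ^ 2 := by rw [sq]; exact Nat.mul_le_mul han han
    · rw [hidx]
      exact Nat.mul_ne_zero hi0 ha0.ne'
    · rw [hidx]
      calc H₁.index * a ≤ a * a := Nat.mul_le_mul_right _ (hi.trans hsq)
        _ ≤ n ^ 2 := by rw [sq]; exact Nat.mul_le_mul han han
    · intro g hg x hx
      obtain ⟨y, hy, rfl⟩ := hx
      exact hLP (Φ g) ⟨g, hg, rfl⟩ y hy

end Pool.Agent.R111.PM
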