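import Pool.Agent.R111.PM.Main
set_option autoImplicit false

/-! Sets with small sums with all their multiples by the elements of a ring; approximately linear maps. -/

open scoped Pointwise

namespace Pool.Agent.R111.PM

universe u v w

section modules

variable (R : Type w) [Ring R] {M : Type u} [AddCommGroup M] [Module R M]

/-- the multiplications by the elements of `R` -/
def mults : AddSubgroup (M →+ M) where
  carrier := {φ | ∃ r : R, ∀ x, φ x = r • x}
  zero_mem' := ⟨0, fun x => by simp⟩
  add_mem' := by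
    rintro φ ψ ⟨r, hr⟩ ⟨s, hs⟩
    exact ⟨r + s, fun x => by rw [AddMonoidHom.add_apply, hr, hs, add_smul]⟩
  neg_mem' := by
    rintro φ ⟨r, hr⟩
    exact ⟨-r, fun x => by rw [AddMonoidHom.neg_apply, hr, neg_smul]⟩

/-- **Freiman-Ruzsa theorem with absolute exponents for modules over arbitrary rings.** -/
theorem modules [d : DecidableEq M] (K : ℝ) (A : Finset M) (hA : A.Nonempty)
    (hK : ∀ r : R, ((A + A.image fun x => r • x).card : ℝ) ≤ K * A.card) :
    ∃ (N : Submodule R M) (T : Finset M), Finite N ∧
      (Nat.card N : ℝ) ≤ 64 * K ^ 59466 * A.card ∧ (T.card : ℝ) ≤ 64 * K ^ 59468 ∧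
      ∀ a ∈ A, ∃ t ∈ T, a - t ∈ N := by
  have hd : d = (fun a b => Classical.propDecidable (a = b)) := Subsingleton.elim _ _
  subst hd
  classical
  obtain ⟨H₀, H₁, T, hf, hle, hc, hT, hmap, hcov⟩ := endo (mults R (M := M))
    ⟨1, fun x => by simp⟩ K A hA (by
      rintro φ ⟨r, hr⟩
      have h1 := hK r
      have h2 : A.image ⇑φ = A.image fun x => r • x := Finset.image_congr fun x _ => hr x
      rwa [h2])
  have hmap' : ∀ (r : R), ∀ x ∈ H₀, r • x ∈ H₁ := by
    intro r x hx
    exact hmap (DistribSMul.toAddMonoidHom M r) ⟨r, fun x => rfl⟩ x hx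
  set N : Submodule R M := Submodule.span R (H₀ : Set M) with hN
  have hNle : ∀ x ∈ N, ∀ r : R, r • x ∈ H₁ := by
    intro x hx
    refine Submodule.span_induction (p := fun x _ => ∀ r : R, r • x ∈ H₁) ?_ ?_ ?_ ?_ hx
    · intro x hx r
      exact hmap' r x hx
    · intro r
      rw [smul_zero]
      exact H₁.zero_mem
    · intro x y _ _ hx hy r
      rw [smul_add]
      exact H₁.add_mem (hx r) (hy r)
    · intro s x _ hx r
      rw [smul_smul]
      exact hx (r * s)
  have hNle' : (N : Set M) ⊆ (H₁ : Set M) := by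
    intro x hx
    have := hNle x hx 1
    rwa [one_smul] at this
  have hfin : Finite N := (Set.toFinite (H₁ : Set M)).subset hNle'
  refine ⟨N, T, hfin, ?_, hT, ?_⟩
  · refine le_trans ?_ hc
    have h1 : Nat.card N ≤ Nat.card H₁ := Nat.card_mono (Set.toFinite (H₁ : Set M)) hNle'
    exact_mod_cast h1
  · intro a ha
    obtain ⟨t, ht, h⟩ := hcov a ha
    exact ⟨t, ht, Submodule.subset_span h⟩

/-- the converse -/
theorem converse [DecidableEq M] (L : ℝ) (A : Finset M) (N : Submodule R M) (T : Finset M)
    [Finite N] (hN : (Nat.card N : ℝ) ≤ L * A.card) (hT : (T.card : ℝ) ≤ L)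
    (hcov : ∀ a ∈ A, ∃ t ∈ T, a - t ∈ N) (r : R) :
    ((A + A.image fun x => r • x).card : ℝ) ≤ L ^ 3 * A.card := by
  classical
  set NF : Finset M := (Set.toFinite (N : Set M)).toFinset with hNF
  have hmem : ∀ x, x ∈ NF ↔ x ∈ N := by
    intro x
    rw [hNF, Set.Finite.mem_toFinset]
    rfl
  have hNFc : NF.card = Nat.card N := by
    rw [← Set.ncard_coe_finset, hNF, Set.Finite.coe_toFinset]
    rfl
  have hsub : (A + A.image fun x => r • x) ⊆ (T + T.image fun x => r • x) + NF := by
    intro x hx
    obtain ⟨a, ha, b, hb, rfl⟩ := Finset.mem_add.1 hx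
    obtain ⟨c, hc, rfl⟩ := Finset.mem_image.1 hb
    obtain ⟨t, ht, h1⟩ := hcov a ha
    obtain ⟨s, hs, h2⟩ := hcov c hc
    refine Finset.mem_add.2 ⟨t + r • s, Finset.add_mem_add ht (Finset.mem_image_of_mem _ hs),
      (a - t) + r • (c - s), (hmem _).2 (N.add_mem h1 (N.smul_mem r h2)), ?_⟩
    rw [smul_sub]
    abel
  have hTc : (0 : ℝ) ≤ T.card := by positivity
  have hL : 0 ≤ L := hTc.trans hT
  calc ((A + A.image fun x => r • x).card : ℝ)
      ≤ ((T + T.image fun x => r • x) + NF).card := by exact_mod_cast Finset.card_le_card hsub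
    _ ≤ (T + T.image fun x => r • x).card * NF.card := by exact_mod_cast Finset.card_add_le
    _ ≤ (T.card * T.card) * NF.card := by
        refine mul_le_mul_of_nonneg_right ?_ (by positivity)
        exact_mod_cast Finset.card_add_le.trans (Nat.mul_le_mul_left _ Finset.card_image_le)
    _ ≤ (L * L) * (L * A.card) := by
        rw [hNFc]
        exact mul_le_mul (mul_le_mul hT hT hTc hL) hN (by positivity) (by positivity)
    _ = L ^ 3 * A.card := by ring

end modules

section linear

variable (R : Type w) [Ring R] [IsSemisimpleRing R] {V : Type u} {W : Type v} [AddCommGroup V]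
  [AddCommGroup W] [Module R V] [Module R W] [Finite V]

/-- **Approximately linear maps are near linear maps, with an absolute exponent.** -/
theorem approx (f : V → W) (S : Finset W)
    (hf : ∀ (x y : V) (r : R), f (x + r • y) - f x - r • f y ∈ S) :
    ∃ (g : V →ₗ[R] W) (E : Finset W), (E.card : ℝ) ≤ 262144 * (S.card : ℝ) ^ 178402 ∧
      ∀ x, f x - g x ∈ E := by
  classical
  have hft : Fintype V := Fintype.ofFinite V
  set K : ℝ := (S.card : ℝ) with hKdef
  set A : Finset (V × W) := Finset.univ.image fun x => (x, f x) with hAdef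
  have hAc : A.card = Fintype.card V := by
    rw [hAdef, Finset.card_image_of_injective _ (fun x y h => (Prod.ext_iff.1 h).1),
      Finset.card_univ]
  have hAne : A.Nonempty := ⟨(0, f 0), Finset.mem_image.2 ⟨0, Finset.mem_univ _, rfl⟩⟩
  have hK : ∀ r : R, ((A + A.image fun x => r • x).card : ℝ) ≤ K * A.card := by
    intro r
    have hsub : (A + A.image fun x => r • x) ⊆
        (Finset.univ ×ˢ S).image fun p : V × W => (p.1, f p.1 - p.2) := by
      intro z hz
      obtain ⟨a, ha, b, hb, rfl⟩ := Finset.mem_add.1 hz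
      obtain ⟨c, hc, rfl⟩ := Finset.mem_image.1 hb
      obtain ⟨x, -, rfl⟩ := Finset.mem_image.1 ha
      obtain ⟨y, -, rfl⟩ := Finset.mem_image.1 hc
      refine Finset.mem_image.2 ⟨(x + r • y, f (x + r • y) - f x - r • f y),
        Finset.mem_product.2 ⟨Finset.mem_univ _, hf x y r⟩, ?_⟩
      refine Prod.ext rfl ?_
      show f (x + r • y) - (f (x + r • y) - f x - r • f y) = f x + r • f y
      abel
    calc ((A + A.image fun x => r • x).card : ℝ)
        ≤ ((Finset.univ ×ˢ S).image fun p : V × W => (p.1, f p.1 - p.2)).card := by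
          exact_mod_cast Finset.card_le_card hsub
      _ ≤ (Finset.univ ×ˢ S : Finset (V × W)).card := by exact_mod_cast Finset.card_image_le
      _ = K * A.card := by
          rw [Finset.card_product, Finset.card_univ, hAc]
          push_cast
          ring
  obtain ⟨N, T, hNf, hNc, hTc, hcov⟩ := modules R K A hAne hK
  have hVpos : (0 : ℝ) < Fintype.card V := by exact_mod_cast Fintype.card_pos
  have hK0 : 0 ≤ K := by positivity
  -- the projection of `N`
  let pr : N →ₗ[R] V := (LinearMap.fst R V W).comp N.subtype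
  have hVT : (Fintype.card V : ℝ) ≤ T.card * Nat.card pr.range := by
    have h1 : (Finset.univ : Finset V) ⊆
        (T.image Prod.fst) + (Set.toFinite (pr.range : Set V)).toFinset := by
      intro x _
      obtain ⟨t, ht, h⟩ := hcov (x, f x) (Finset.mem_image.2 ⟨x, Finset.mem_univ _, rfl⟩)
      refine Finset.mem_add.2 ⟨t.1, Finset.mem_image_of_mem _ ht, x - t.1, ?_, by abel⟩
      rw [Set.Finite.mem_toFinset]
      exact ⟨⟨(x, f x) - t, h⟩, rfl⟩
    have h2 : Fintype.card V ≤ T.card * Nat.card pr.range := by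
      rw [← Finset.card_univ]
      refine (Finset.card_le_card h1).trans (Finset.card_add_le.trans ?_)
      refine Nat.mul_le_mul Finset.card_image_le ?_
      rw [← Set.ncard_coe_finset, Set.Finite.coe_toFinset]
      exact le_rfl
    exact_mod_cast h2
  have hker : (Nat.card N : ℝ) = Nat.card pr.ker * Nat.card pr.range := by
    have h1 : Nat.card pr.toAddMonoidHom.ker * pr.toAddMonoidHom.ker.index = Nat.card N :=
      AddSubgroup.card_mul_index _
    rw [AddSubgroup.index_ker] at h1
    have h2 : Nat.card pr.toAddMonoidHom.ker = Nat.card pr.ker := rfl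
    have h3 : Nat.card pr.toAddMonoidHom.range = Nat.card pr.range := rfl
    rw [h2, h3] at h1
    rw [← h1]
    push_cast
    ring
  have hkerc : (Nat.card pr.ker : ℝ) ≤ 4096 * K ^ 118934 := by
    have h1 : (Nat.card pr.ker : ℝ) * Fintype.card V ≤ 4096 * K ^ 118934 * Fintype.card V := by
      calc (Nat.card pr.ker : ℝ) * Fintype.card V
          ≤ Nat.card pr.ker * (T.card * Nat.card pr.range) :=
            mul_le_mul_of_nonneg_left hVT (by positivity)
        _ = T.card * Nat.card N := by rw [hker]; ring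
        _ ≤ (64 * K ^ 59468) * (64 * K ^ 59466 * A.card) :=
            mul_le_mul hTc hNc (by positivity) (by positivity)
        _ = 4096 * K ^ 118934 * Fintype.card V := by
            rw [hAc, show (118934 : ℕ) = 59468 + 59466 from rfl, pow_add]
            ring
    exact le_of_mul_le_mul_right h1 hVpos
  -- a linear section and its extension
  obtain ⟨s, hs⟩ : ∃ s : pr.range →ₗ[R] N, pr.rangeRestrict ∘ₗ s = LinearMap.id :=
    IsSemisimpleModule.lifting_property pr.rangeRestrict (LinearMap.surjective_rangeRestrict pr)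
      LinearMap.id
  obtain ⟨g, hg⟩ : ∃ g : V →ₗ[R] W, g ∘ₗ pr.range.subtype =
      (LinearMap.snd R V W ∘ₗ N.subtype) ∘ₗ s :=
    IsSemisimpleModule.extension_property pr.range.subtype (Submodule.injective_subtype _) _
  have hgN : ∀ v (hv : v ∈ pr.range), (v, g v) ∈ N := by
    intro v hv
    have h1 : pr.rangeRestrict (s ⟨v, hv⟩) = ⟨v, hv⟩ := LinearMap.congr_fun hs _
    have h2 : ((s ⟨v, hv⟩ : N) : V × W).1 = v := congrArg Subtype.val h1
    have h3 : g v = ((s ⟨v, hv⟩ : N) : V × W).2 := LinearMap.congr_fun hg ⟨v, hv⟩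
    have h4 : (v, g v) = ((s ⟨v, hv⟩ : N) : V × W) := Prod.ext h2.symm h3
    rw [h4]
    exact (s ⟨v, hv⟩).2
  have hft2 : Fintype pr.ker := Fintype.ofFinite _
  set E₀ : Finset W := Finset.univ.image fun z : pr.ker => ((z : N) : V × W).2 with hE₀
  set E : Finset W := (T.image fun t => t.2 - g t.1) + E₀ with hE
  refine ⟨g, E, ?_, ?_⟩
  · calc (E.card : ℝ) ≤ T.card * Nat.card pr.ker := by
          have h1 : E.card ≤ T.card * Nat.card pr.ker := by
            refine Finset.card_add_le.trans (Nat.mul_le_mul Finset.card_image_le ?_)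
            rw [Nat.card_eq_fintype_card, ← Finset.card_univ]
            exact Finset.card_image_le
          exact_mod_cast h1
      _ ≤ (64 * K ^ 59468) * (4096 * K ^ 118934) :=
          mul_le_mul hTc hkerc (by positivity) (by positivity)
      _ = 262144 * K ^ 178402 := by
          rw [show (178402 : ℕ) = 59468 + 118934 from rfl, pow_add]
          ring
  · intro x
    obtain ⟨t, ht, h⟩ := hcov (x, f x) (Finset.mem_image.2 ⟨x, Finset.mem_univ _, rfl⟩)
    have hv : x - t.1 ∈ pr.range := ⟨⟨(x, f x) - t, h⟩, rfl⟩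
    have h1 := hgN _ hv
    have h2 : ((0 : V), f x - t.2 - g (x - t.1)) ∈ N := by
      have h3 := N.sub_mem h h1
      have h4 : (x, f x) - t - (x - t.1, g (x - t.1)) = ((0 : V), f x - t.2 - g (x - t.1)) := by
        refine Prod.ext ?_ ?_
        · show x - t.1 - (x - t.1) = 0
          abel
        · rfl
      rwa [h4] at h3
    refine Finset.mem_add.2 ⟨t.2 - g t.1, Finset.mem_image_of_mem _ ht,
      f x - t.2 - g (x - t.1), ?_, ?_⟩
    · refine Finset.mem_image.2 ⟨⟨⟨_, h2⟩, ?_⟩, Finset.mem_univ _, rfl⟩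
      exact LinearMap.mem_ker.2 rfl
    · rw [map_sub]
      abel

end linear

end Pool.Agent.R111.PM
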