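import Pool.Agent.R111.PM.Comp
import Pool.Agent.TH414.UD.Gen
set_option autoImplicit false

/-! Sets with small sums with their images under all members of a group of endomorphisms. -/

open scoped Pointwise

namespace Pool.Agent.R111.PM

universe u v

section counting

variable {Γ : Type u} [AddCommGroup Γ] [DecidableEq Γ]

/-- `D - D + E` for `|D + D|`, `|D + E|` small -/
theorem triple {D E : Finset Γ} (hD : D.Nonempty) {c : ℝ}
    (h1 : ((D + D).card : ℝ) ≤ c * D.card) (h2 : ((D + E).card : ℝ) ≤ c * D.card) :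
    (((D - D) + E).card : ℝ) ≤ 8 * c ^ 3 * D.card := by
  set B := D ∪ E with hB
  have hpos : (0 : ℝ) < D.card := by exact_mod_cast hD.card_pos
  have hc : 0 ≤ c := by
    by_contra hneg
    have h3 : (0 : ℝ) ≤ (D + D).card := by positivity
    nlinarith
  have h3 : ((D + B).card : ℝ) ≤ 2 * c * D.card := by
    have h4 : D + B = (D + D) ∪ (D + E) := by rw [hB, Finset.add_union]
    have h5 : ((D + B).card : ℝ) ≤ (D + D).card + (D + E).card := by
      rw [h4]
      exact_mod_cast Finset.card_union_le _ _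
    linarith
  have h4 := Finset.pluennecke_ruzsa_inequality_nsmul_sub_nsmul_add hD B 2 1
  have h5 : (((2 • B - 1 • B).card : ℕ) : ℝ) ≤ (((D + B).card : ℝ) / D.card) ^ 3 * D.card := by
    have := (NNRat.cast_le (K := ℝ)).2 h4
    push_cast at this
    exact this
  have h6 : (D - D) + E ⊆ 2 • B - 1 • B := by
    intro x hx
    obtain ⟨y, hy, e, he, rfl⟩ := Finset.mem_add.1 hx
    obtain ⟨d, hd, d', hd', rfl⟩ := Finset.mem_sub.1 hy
    rw [one_nsmul, two_nsmul]
    refine Finset.mem_sub.2 ⟨d + e, Finset.add_mem_add (Finset.mem_union_left _ hd)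
      (Finset.mem_union_right _ he), d', Finset.mem_union_left _ hd', ?_⟩
    abel
  have h7 : ((D + B).card : ℝ) / D.card ≤ 2 * c := by
    rw [div_le_iff₀ hpos]
    exact h3
  calc (((D - D) + E).card : ℝ) ≤ (2 • B - 1 • B).card := by exact_mod_cast Finset.card_le_card h6
    _ ≤ (((D + B).card : ℝ) / D.card) ^ 3 * D.card := h5
    _ ≤ (2 * c) ^ 3 * D.card := by
        refine mul_le_mul_of_nonneg_right (pow_le_pow_left₀ (by positivity) h7 _) hpos.le
    _ = 8 * c ^ 3 * D.card := by ring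

/-- a finite union of cosets of `H` -/
theorem card_cosets (H : AddSubgroup Γ) [DecidableEq (Γ ⧸ H)] (HF : Finset Γ)
    (hHF : ∀ x, x ∈ HF ↔ x ∈ H) (E : Finset Γ) :
    HF.card * (E.image (QuotientAddGroup.mk' H)).card ≤ (HF + E).card := by
  have h1 : ((HF + E).image (QuotientAddGroup.mk' H)) = E.image (QuotientAddGroup.mk' H) := by
    ext c
    constructor
    · intro hc
      obtain ⟨x, hx, rfl⟩ := Finset.mem_image.1 hc
      obtain ⟨h, hh, e, he, rfl⟩ := Finset.mem_add.1 hx
      refine Finset.mem_image.2 ⟨e, he, ?_⟩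
      have : QuotientAddGroup.mk' H h = 0 := by
        rw [← AddMonoidHom.mem_ker, QuotientAddGroup.ker_mk']
        exact (hHF h).1 hh
      rw [map_add, this, zero_add]
    · intro hc
      obtain ⟨e, he, rfl⟩ := Finset.mem_image.1 hc
      refine Finset.mem_image.2 ⟨0 + e, Finset.add_mem_add ((hHF 0).2 H.zero_mem) he, ?_⟩
      rw [zero_add]
  rw [Finset.card_eq_sum_card_image (QuotientAddGroup.mk' H) (HF + E), h1]
  rw [mul_comm, ← smul_eq_mul, ← Finset.sum_const]
  refine Finset.sum_le_sum fun c hc => ?_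
  obtain ⟨e, he, rfl⟩ := Finset.mem_image.1 hc
  rw [← Finset.card_image_of_injective HF (add_left_injective e)]
  refine Finset.card_le_card fun x hx => ?_
  obtain ⟨h, hh, rfl⟩ := Finset.mem_image.1 hx
  rw [Finset.mem_filter]
  refine ⟨Finset.add_mem_add hh he, ?_⟩
  have : QuotientAddGroup.mk' H h = 0 := by
    rw [← AddMonoidHom.mem_ker, QuotientAddGroup.ker_mk']
    exact (hHF h).1 hh
  rw [map_add, this, zero_add]

/-- the image of a subgroup and of a dense subset -/
theorem range_le {Q : Type v} [AddCommGroup Q] [DecidableEq Q] (H : AddSubgroup Γ) [Finite H]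
    (f : Γ →+ Q) (D : Finset Γ) (hD : ∀ x ∈ D, x ∈ H) :
    Nat.card (H.map f) * D.card ≤ Nat.card H * (D.image f).card := by
  classical
  have h1 : Nat.card (f.ker ⊓ H : AddSubgroup Γ) * f.ker.relIndex H = Nat.card H :=
    card_mul_relIndex f.ker H
  rw [AddSubgroup.relIndex_ker] at h1
  have h2 : D.card ≤ (D.image f).card * Nat.card (f.ker ⊓ H : AddSubgroup Γ) := by
    rw [Finset.card_eq_sum_card_image f D, ← smul_eq_mul, ← Finset.sum_const]
    refine Finset.sum_le_sum fun c hc => ?_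
    obtain ⟨d, hd, rfl⟩ := Finset.mem_image.1 hc
    have hfin : Finite (f.ker ⊓ H : AddSubgroup Γ) :=
      (Set.toFinite (H : Set Γ)).subset inf_le_right
    rw [← Finset.card_image_of_injective (D.filter fun x => f x = f d) (sub_left_injective (b := d))]
    rw [← Set.ncard_coe_finset]
    have h3 : Nat.card (f.ker ⊓ H : AddSubgroup Γ) = ((f.ker ⊓ H : AddSubgroup Γ) : Set Γ).ncard :=
      rfl
    rw [h3]
    refine Set.ncard_le_ncard ?_ (Set.toFinite _)
    intro x hx
    obtain ⟨y, hy, rfl⟩ := Finset.mem_image.1 (Finset.mem_coe.1 hx)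
    rw [Finset.mem_filter] at hy
    refine ⟨?_, H.sub_mem (hD y hy.1) (hD d hd)⟩
    show f (y - d) = 0
    rw [map_sub, hy.2, sub_self]
  calc Nat.card (H.map f) * D.card
      ≤ Nat.card (H.map f) * ((D.image f).card * Nat.card (f.ker ⊓ H : AddSubgroup Γ)) :=
        Nat.mul_le_mul_left _ h2
    _ = (Nat.card (f.ker ⊓ H : AddSubgroup Γ) * Nat.card (H.map f)) * (D.image f).card := by ring
    _ = _ := by rw [h1]

end counting

section main

variable {Γ : Type u} [AddCommGroup Γ]

open scoped Classical in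
/-- **The structure theorem for a group of endomorphisms.** -/
theorem endo (Φ : AddSubgroup (Γ →+ Γ)) (hid : AddMonoidHom.id Γ ∈ Φ) (K : ℝ) (A : Finset Γ)
    (hA : A.Nonempty) (hK : ∀ φ ∈ Φ, ((A + A.image φ).card : ℝ) ≤ K * A.card) :
    ∃ (H₀ H₁ : AddSubgroup Γ) (T : Finset Γ), Finite H₁ ∧ H₀ ≤ H₁ ∧
      (Nat.card H₁ : ℝ) ≤ 64 * K ^ 59466 * A.card ∧ (T.card : ℝ) ≤ 64 * K ^ 59468 ∧
      (∀ φ ∈ Φ, ∀ x ∈ H₀, φ x ∈ H₁) ∧ ∀ a ∈ A, ∃ t ∈ T, a - t ∈ H₀ := by
  have hpos : (0 : ℝ) < A.card := by exact_mod_cast hA.card_pos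
  have hn : ∀ n : ℕ, n • AddMonoidHom.id Γ ∈ Φ := fun n => Φ.nsmul_mem hid n
  have hdil : ∀ n : ℕ, ((A + A.image fun x => n • x).card : ℝ) ≤ K * A.card := by
    intro n
    have h1 := hK _ (hn n)
    have h2 : (A.image ⇑(n • AddMonoidHom.id Γ)) = A.image fun x => n • x :=
      Finset.image_congr fun x _ => by simp
    rwa [h2] at h1
  have hK1 : 1 ≤ K := by
    have h1 : (A.card : ℝ) ≤ (A + A.image fun x => 0 • x).card := by
      exact_mod_cast Finset.card_le_card_add_right (hA.image _)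
    have h2 := hdil 0
    nlinarith
  have hK0 : 0 < K := by linarith
  obtain ⟨H, T, hHf, hHc, hTc, hcov⟩ := Pool.Agent.TH414.UD.structureA A hA K hdil
  -- the largest part in a coset of `H`
  obtain ⟨t, ht, htbig⟩ : ∃ t ∈ T, (A.card : ℝ) ≤ K ^ 5406 *
      ((A.filter fun a => a - t ∈ H).card : ℝ) := by
    by_contra hcon
    push Not at hcon
    have h1 : (A.card : ℝ) ≤ ∑ t ∈ T, ((A.filter fun a => a - t ∈ H).card : ℝ) := by
      have h2 : A ⊆ T.biUnion fun t => A.filter fun a => a - t ∈ H := by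
        intro a ha
        obtain ⟨t, ht, hat⟩ := hcov a ha
        exact Finset.mem_biUnion.2 ⟨t, ht, Finset.mem_filter.2 ⟨ha, hat⟩⟩
      exact_mod_cast (Finset.card_le_card h2).trans Finset.card_biUnion_le
    have hTne : T.Nonempty := by
      obtain ⟨a, ha⟩ := hA
      obtain ⟨t, ht, -⟩ := hcov a ha
      exact ⟨t, ht⟩
    have h3 : ∑ t ∈ T, K ^ 5406 * ((A.filter fun a => a - t ∈ H).card : ℝ) <
        ∑ t ∈ T, (A.card : ℝ) := Finset.sum_lt_sum_of_nonempty hTne hcon
    rw [← Finset.mul_sum, Finset.sum_const, nsmul_eq_mul] at h3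
    have h4 : K ^ 5406 * (A.card : ℝ) ≤
        K ^ 5406 * ∑ t ∈ T, ((A.filter fun a => a - t ∈ H).card : ℝ) :=
      mul_le_mul_of_nonneg_left h1 (by positivity)
    have h5 : (T.card : ℝ) * A.card ≤ K ^ 5406 * A.card := mul_le_mul_of_nonneg_right hTc hpos.le
    linarith
  set A' := A.filter fun a => a - t ∈ H with hA'
  set D := A'.image (fun x => x - t) with hD
  have hDc : D.card = A'.card := Finset.card_image_of_injective _ sub_left_injective
  have hDH : ∀ x ∈ D, x ∈ H := by
    intro x hx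
    obtain ⟨y, hy, rfl⟩ := Finset.mem_image.1 hx
    exact (Finset.mem_filter.1 hy).2
  have hAD : (A.card : ℝ) ≤ K ^ 5406 * D.card := by rw [hDc]; exact htbig
  have hDne : D.Nonempty := by
    rw [← Finset.card_pos]
    by_contra hcon
    have h0 : D.card = 0 := by omega
    rw [h0] at hAD
    simp at hAD
    rw [hAD] at hA
    exact Finset.not_nonempty_empty hA
  have hDpos : (0 : ℝ) < D.card := by exact_mod_cast hDne.card_pos
  have hDφ : ∀ φ ∈ Φ, ((D + D.image φ).card : ℝ) ≤ K ^ 5407 * D.card := by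
    intro φ hφ
    have h1 : D + D.image φ ⊆ (A + A.image φ).image (fun x => x - (t + φ t)) := by
      intro y hy
      obtain ⟨b, hb, b', hb', rfl⟩ := Finset.mem_add.1 hy
      obtain ⟨b'', hb'', rfl⟩ := Finset.mem_image.1 hb'
      obtain ⟨x, hx, rfl⟩ := Finset.mem_image.1 hb
      obtain ⟨x', hx', rfl⟩ := Finset.mem_image.1 hb''
      refine Finset.mem_image.2 ⟨x + φ x', Finset.add_mem_add (Finset.mem_filter.1 hx).1
        (Finset.mem_image_of_mem _ (Finset.mem_filter.1 hx').1), ?_⟩
      rw [map_sub]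
      abel
    have h2 : ((D + D.image φ).card : ℝ) ≤ (A + A.image φ).card := by
      exact_mod_cast (Finset.card_le_card h1).trans Finset.card_image_le
    calc ((D + D.image φ).card : ℝ) ≤ K * A.card := h2.trans (hK φ hφ)
      _ ≤ K * (K ^ 5406 * D.card) := mul_le_mul_of_nonneg_left hAD hK0.le
      _ = K ^ 5407 * D.card := by rw [← mul_assoc, ← pow_succ']
  have hDD : ((D + D).card : ℝ) ≤ K ^ 5407 * D.card := by
    have := hDφ _ hid
    have h2 : D.image (AddMonoidHom.id Γ) = D := by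
      ext x; simp
    rwa [h2] at this
  -- `H` as a finite set
  set HF : Finset Γ := (Set.toFinite (H : Set Γ)).toFinset with hHF
  have hmem : ∀ x, x ∈ HF ↔ x ∈ H := by
    intro x
    rw [hHF, Set.Finite.mem_toFinset]
    rfl
  have hHFc : HF.card = Nat.card H := by
    rw [← Set.ncard_coe_finset, hHF, Set.Finite.coe_toFinset]
    rfl
  have hHpos : (0 : ℝ) < Nat.card H := by exact_mod_cast Nat.card_pos
  have hHD : (Nat.card H : ℝ) ≤ K ^ 10810 * D.card := by
    calc (Nat.card H : ℝ) ≤ K ^ 5404 * A.card := hHc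
      _ ≤ K ^ 5404 * (K ^ 5406 * D.card) := mul_le_mul_of_nonneg_left hAD (by positivity)
      _ = K ^ 10810 * D.card := by rw [← mul_assoc, ← pow_add]
  have hHFD : ((HF + D).card : ℝ) ≤ K ^ 10810 * D.card := by
    have h1 : HF + D ⊆ HF := by
      intro x hx
      obtain ⟨h, hh, d, hd, rfl⟩ := Finset.mem_add.1 hx
      exact (hmem _).2 (H.add_mem ((hmem _).1 hh) (hDH d hd))
    have h2 : ((HF + D).card : ℝ) ≤ HF.card := by exact_mod_cast Finset.card_le_card h1
    rw [hHFc] at h2
    linarith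
  obtain ⟨F, -, hFc, hHFcov⟩ := Finset.ruzsa_covering_add hDne hHFD
  -- the images of `H`
  have hrange : ∀ φ ∈ Φ, (Nat.card (H.map ((QuotientAddGroup.mk' H).comp φ)) : ℝ) ≤
      8 * K ^ 27031 := by
    intro φ hφ
    have h1 := range_le H ((QuotientAddGroup.mk' H).comp φ) D hDH
    have h2 := card_cosets H HF hmem (D.image φ)
    have h3 : (D.image φ).image (QuotientAddGroup.mk' H) =
        D.image ((QuotientAddGroup.mk' H).comp φ) := by
      rw [Finset.image_image]
      rfl
    rw [h3, hHFc] at h2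
    have h4 : HF + D.image φ ⊆ F + ((D - D) + D.image φ) := by
      intro x hx
      obtain ⟨h, hh, e, he, rfl⟩ := Finset.mem_add.1 hx
      obtain ⟨f, hf, d, hd, hfd⟩ := Finset.mem_add.1 (hHFcov hh)
      rw [← hfd, add_assoc]
      exact Finset.add_mem_add hf (Finset.add_mem_add hd he)
    have h5 : ((HF + D.image φ).card : ℝ) ≤ F.card * ((D - D) + D.image φ).card := by
      exact_mod_cast (Finset.card_le_card h4).trans Finset.card_add_le
    have h6 := triple hDne hDD (hDφ φ hφ)
    have h7 : ((HF + D.image φ).card : ℝ) ≤ K ^ 10810 * (8 * (K ^ 5407) ^ 3 * D.card) :=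
      h5.trans (mul_le_mul hFc h6 (by positivity) (by positivity))
    have h8 : (Nat.card (H.map ((QuotientAddGroup.mk' H).comp φ)) : ℝ) * D.card ≤
        8 * K ^ 27031 * D.card := by
      calc (Nat.card (H.map ((QuotientAddGroup.mk' H).comp φ)) : ℝ) * D.card
          ≤ Nat.card H * (D.image ((QuotientAddGroup.mk' H).comp φ)).card := by exact_mod_cast h1
        _ ≤ (HF + D.image φ).card := by exact_mod_cast h2
        _ ≤ K ^ 10810 * (8 * (K ^ 5407) ^ 3 * D.card) := h7
        _ = 8 * K ^ 27031 * D.card := by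
            rw [← pow_mul, show (27031 : ℕ) = 10810 + 5407 * 3 from rfl, pow_add]
            ring
    exact le_of_mul_le_mul_right h8 hDpos
  -- compression
  set n := ⌊8 * K ^ 27031⌋₊ with hn'
  have hn2 : ((n ^ 2 : ℕ) : ℝ) ≤ 64 * K ^ 54062 := by
    have h1 : (n : ℝ) ≤ 8 * K ^ 27031 := Nat.floor_le (by positivity)
    push_cast
    calc (n : ℝ) ^ 2 ≤ (8 * K ^ 27031) ^ 2 := pow_le_pow_left₀ (by positivity) h1 _
      _ = 64 * K ^ 54062 := by
          rw [mul_pow, ← pow_mul]
          norm_num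
  let R : (Γ →+ Γ) →+ (H →+ Γ ⧸ H) :=
    { toFun := fun φ => ((QuotientAddGroup.mk' H).comp φ).comp H.subtype
      map_zero' := by ext x; simp
      map_add' := fun φ ψ => by ext x; simp }
  have hR : ∀ φ (x : H), R φ x = QuotientAddGroup.mk' H (φ x) := fun φ x => rfl
  have hRr : ∀ φ, (R φ).range = H.map ((QuotientAddGroup.mk' H).comp φ) := by
    intro φ
    ext y
    constructor
    · rintro ⟨x, rfl⟩
      exact ⟨x, x.2, rfl⟩
    · rintro ⟨x, hx, rfl⟩
      exact ⟨⟨x, hx⟩, rfl⟩
  obtain ⟨H₀', P, hPf, hPc, hi0, hi, hmap⟩ := compress n H (Γ ⧸ H) (Φ.map R) (by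
    rintro _ ⟨φ, hφ, rfl⟩
    constructor
    · exact Finite.of_surjective (R φ).rangeRestrict (R φ).rangeRestrict_surjective
    · rw [hRr]
      exact Nat.le_floor (hrange φ hφ))
  have hcomap : Nat.card (P.comap (QuotientAddGroup.mk' H)) = Nat.card H * Nat.card P := by
    have hle : H ≤ P.comap (QuotientAddGroup.mk' H) := by
      intro x hx
      have : QuotientAddGroup.mk' H x = 0 := by
        rw [← AddMonoidHom.mem_ker, QuotientAddGroup.ker_mk']
        exact hx
      show QuotientAddGroup.mk' H x ∈ P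
      rw [this]
      exact P.zero_mem
    have h3 := card_mul_relIndex H (P.comap (QuotientAddGroup.mk' H))
    rw [inf_eq_left.2 hle] at h3
    rw [← h3]
    congr 1
    have h4 := AddSubgroup.relIndex_ker (P.comap (QuotientAddGroup.mk' H))
      (QuotientAddGroup.mk' H)
    rw [QuotientAddGroup.ker_mk', AddSubgroup.map_comap_eq_self_of_surjective
      (QuotientAddGroup.mk'_surjective H)] at h4
    exact h4
  have hft : Finite (H ⧸ H₀') := AddSubgroup.finite_quotient_of_finiteIndex (H := H₀')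
  have hft' : Fintype (H ⧸ H₀') := Fintype.ofFinite _
  set T₁ : Finset Γ := Finset.univ.image fun q : H ⧸ H₀' => ((Quotient.out q : H) : Γ) with hT₁
  have hT₁c : (T₁.card : ℝ) ≤ 64 * K ^ 54062 := by
    refine le_trans ?_ hn2
    have h1 : T₁.card ≤ H₀'.index := by
      refine Finset.card_image_le.trans ?_
      rw [Finset.card_univ, ← Nat.card_eq_fintype_card]
      exact le_rfl
    exact_mod_cast h1.trans hi
  refine ⟨H₀'.map H.subtype, P.comap (QuotientAddGroup.mk' H), T + T₁, ?_, ?_, ?_, ?_, ?_, ?_⟩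
  · apply Nat.finite_of_card_ne_zero
    rw [hcomap]
    exact (Nat.mul_pos Nat.card_pos Nat.card_pos).ne'
  · rintro _ ⟨x, hx, rfl⟩
    exact hmap (R (AddMonoidHom.id Γ)) ⟨_, hid, rfl⟩ x hx
  · rw [hcomap]
    push_cast
    calc (Nat.card H : ℝ) * Nat.card P ≤ (K ^ 5404 * A.card) * (64 * K ^ 54062) := by
          refine mul_le_mul hHc ?_ (by positivity) (by positivity)
          refine le_trans ?_ hn2
          exact_mod_cast hPc
      _ = 64 * K ^ 59466 * A.card := by
          rw [show (59466 : ℕ) = 5404 + 54062 from rfl, pow_add]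
          ring
  · calc ((T + T₁).card : ℝ) ≤ T.card * T₁.card := by exact_mod_cast Finset.card_add_le
      _ ≤ K ^ 5406 * (64 * K ^ 54062) := mul_le_mul hTc hT₁c (by positivity) (by positivity)
      _ = 64 * K ^ 59468 := by
          rw [show (59468 : ℕ) = 5406 + 54062 from rfl, pow_add]
          ring
  · rintro φ hφ _ ⟨x, hx, rfl⟩
    exact hmap (R φ) ⟨φ, hφ, rfl⟩ x hx
  · intro a ha
    obtain ⟨t, ht, hat⟩ := hcov a ha
    set h : H := ⟨a - t, hat⟩
    set q : H ⧸ H₀' := QuotientAddGroup.mk h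
    refine ⟨t + ((Quotient.out q : H) : Γ), Finset.add_mem_add ht
      (Finset.mem_image.2 ⟨q, Finset.mem_univ _, rfl⟩), ?_⟩
    have h1 : -(Quotient.out q) + h ∈ H₀' := by
      rw [← QuotientAddGroup.eq]
      exact QuotientAddGroup.out_eq' q
    refine ⟨-(Quotient.out q) + h, h1, ?_⟩
    show -((Quotient.out q : H) : Γ) + (a - t) = a - (t + ((Quotient.out q : H) : Γ))
    abel

end main

end Pool.Agent.R111.PM
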